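import Pool.Agent.H31.MP.Targets2
import Pool.Agent.H20.BV.ML
import Pool.Agent.H88.AD.HQB

/-!
# MP_76b9e7_nt, board mtp_modules, row MR: the product of Mertens
-/

set_option autoImplicit false

open Finset Real

namespace Pool.Agent.H11.MTP

open Pool.Agent.H31.MP

theorem factor_pos {p : ℕ} (hp : p.Prime) : 0 < 1 - 1 / (p : ℝ) := by
  have hp2 : (2 : ℝ) ≤ p := by exact_mod_cast hp.two_le
  have h : 1 / (p : ℝ) ≤ 1 / 2 := by gcongr
  linarith

theorem pf_MR : T_MR := by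
  obtain ⟨C, hC, h1⟩ := Pool.Agent.H88.AD.mertens_prod
  obtain ⟨D, h2⟩ := Pool.Agent.H20.BV.ml
  refine ⟨1 / C, 2 * Real.exp |D| + Real.log 3, by positivity, by
    have : 0 < Real.log 3 := Real.log_pos (by norm_num)
    positivity, ?_⟩
  intro x hx
  have hx0 : 0 < x := by linarith
  have hlx : 0 < Real.log x := Real.log_pos (by linarith)
  have hR2 : 2 ≤ ⌊x⌋₊ := Nat.le_floor (by exact_mod_cast hx)
  have hRx : ((⌊x⌋₊ : ℕ) : ℝ) ≤ x := Nat.floor_le hx0.le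
  have hxR : x < ((⌊x⌋₊ : ℕ) : ℝ) + 1 := Nat.lt_floor_add_one x
  have hR1 : (1 : ℝ) < ((⌊x⌋₊ : ℕ) : ℝ) := by exact_mod_cast (by omega : 1 < ⌊x⌋₊)
  have hlR : 0 < Real.log ((⌊x⌋₊ : ℕ) : ℝ) := Real.log_pos hR1
  have hpos : ∀ p ∈ (Icc 1 ⌊x⌋₊).filter Nat.Prime, 0 < 1 - 1 / (p : ℝ) := fun p hp =>
    factor_pos (Finset.mem_filter.1 hp).2
  have hMe : 0 < Me x := Finset.prod_pos hpos
  refine ⟨?_, ?_⟩
  · -- lower bound
    have hset : (primorial ⌊x⌋₊).primeFactors = (Icc 1 ⌊x⌋₊).filter Nat.Prime := by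
      ext p
      rw [Nat.mem_primeFactors, Finset.mem_filter, Finset.mem_Icc]
      constructor
      · rintro ⟨hp, hd, -⟩
        exact ⟨⟨hp.one_le, hp.dvd_primorial_iff.1 hd⟩, hp⟩
      · rintro ⟨⟨-, h⟩, hp⟩
        exact ⟨hp, hp.dvd_primorial_iff.2 h, primorial_ne_zero _⟩
    have h3 := h1 ⌊x⌋₊ hR2
    rw [hset, Finset.prod_inv_distrib] at h3
    have h4 : (Me x)⁻¹ ≤ C * Real.log x :=
      h3.trans (mul_le_mul_of_nonneg_left (Real.log_le_log (by linarith) hRx) hC.le)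
    rw [div_div, one_div, inv_le_comm₀ (by positivity) hMe]
    exact h4
  · -- upper bound
    rcases Nat.lt_or_ge ⌊x⌋₊ 3 with h3 | h3
    · have hx3 : x < 3 := by
        have : ((⌊x⌋₊ : ℕ) : ℝ) ≤ 2 := by exact_mod_cast (by omega : ⌊x⌋₊ ≤ 2)
        linarith
      have h4 : Me x ≤ 1 := Finset.prod_le_one (fun p hp => (hpos p hp).le) fun p hp => by
        have : 0 ≤ 1 / (p : ℝ) := by positivity
        linarith
      refine h4.trans ?_
      rw [le_div_iff₀ hlx, one_mul]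
      have h5 : Real.log x ≤ Real.log 3 := Real.log_le_log hx0 hx3.le
      have h6 := Real.exp_nonneg |D|
      linarith
    · have h4 := h2 ⌊x⌋₊ h3
      have h5 : Me x ≤ Real.exp (-∑ q ∈ (Icc 1 ⌊x⌋₊).filter Nat.Prime, (1 : ℝ) / q) := by
        rw [← Finset.sum_neg_distrib, Real.exp_sum]
        refine Finset.prod_le_prod (fun p hp => (hpos p hp).le) fun p hp => ?_
        have := Real.add_one_le_exp (-(1 / (p : ℝ)))
        linarith
      have h6 : Real.exp (-∑ q ∈ (Icc 1 ⌊x⌋₊).filter Nat.Prime, (1 : ℝ) / q) ≤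
          Real.exp |D| / Real.log ((⌊x⌋₊ : ℕ) : ℝ) := by
        calc Real.exp (-∑ q ∈ (Icc 1 ⌊x⌋₊).filter Nat.Prime, (1 : ℝ) / q)
            ≤ Real.exp (|D| - Real.log (Real.log ((⌊x⌋₊ : ℕ) : ℝ))) := by
              apply Real.exp_le_exp.2
              have := le_abs_self D
              linarith
          _ = _ := by rw [Real.exp_sub, Real.exp_log hlR]
      have h7 : Real.log x ≤ 2 * Real.log ((⌊x⌋₊ : ℕ) : ℝ) := by
        have h9 : (3 : ℝ) ≤ ((⌊x⌋₊ : ℕ) : ℝ) := by exact_mod_cast h3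
        have h8 : x ≤ ((⌊x⌋₊ : ℕ) : ℝ) ^ 2 := by nlinarith
        calc Real.log x ≤ Real.log (((⌊x⌋₊ : ℕ) : ℝ) ^ 2) := Real.log_le_log hx0 h8
          _ = 2 * Real.log ((⌊x⌋₊ : ℕ) : ℝ) := by rw [Real.log_pow]; norm_num
      have h8 : Real.exp |D| / Real.log ((⌊x⌋₊ : ℕ) : ℝ) ≤ (2 * Real.exp |D| + Real.log 3) / Real.log x := by
        rw [div_le_div_iff₀ hlR hlx]
        have h9 := Real.exp_pos |D|
        have h10 : 0 ≤ Real.log 3 := Real.log_nonneg (by norm_num)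
        nlinarith
      exact h5.trans (h6.trans h8)

end Pool.Agent.H11.MTP
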